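import Pool.Agent.J4H91.RK.Count
import Pool.Agent.J4H91.SD.Spec
import Mathlib.Algebra.Order.Chebyshev
import Mathlib.Combinatorics.SimpleGraph.Copy
import Mathlib.Combinatorics.SimpleGraph.DegreeSum

/-!
# The rank of graphs without `K_{s,t}`
-/

set_option autoImplicit false

namespace Pool.Agent.J4H91.RK

open Finset Matrix

variable {V : Type} [Fintype V] [DecidableEq V]

/-- trace, rank and the sum of the squares -/
lemma trace_sq_le (P : Matrix V V ℝ) (hP : P.IsHermitian) :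
    (∑ v, P v v) ^ 2 ≤ P.rank * ∑ u, ∑ v, P u v ^ 2 := by
  classical
  obtain ⟨lam, b, h1, h2, h3, h4, h5⟩ := Pool.Agent.J4H91.SD.diag P hP
  have htr : ∑ v, P v v = ∑ i, lam i := by
    have e1 : ∀ v, P v v = ∑ i, lam i * b i v ^ 2 := by
      intro v
      rw [h1 v v]
      refine sum_congr rfl fun i _ => ?_
      ring
    rw [sum_congr rfl fun v _ => e1 v, sum_comm]
    refine sum_congr rfl fun i _ => ?_
    rw [← mul_sum, h3, mul_one]
  have hsq : ∑ u, ∑ v, P u v ^ 2 = ∑ i, lam i ^ 2 := by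
    have e1 : ∀ u, ∑ v, P u v ^ 2 = ∑ i, lam i ^ 2 * b i u ^ 2 := by
      intro u
      have e2 : ∀ v, P u v ^ 2 = ∑ i, (lam i * b i u) * (P u v * b i v) := by
        intro v
        rw [sq]
        nth_rewrite 2 [h1 u v]
        rw [mul_sum]
        refine sum_congr rfl fun i _ => ?_
        ring
      rw [sum_congr rfl fun v _ => e2 v, sum_comm]
      refine sum_congr rfl fun i _ => ?_
      rw [← mul_sum, h4 i u]
      ring
    rw [sum_congr rfl fun u _ => e1 u, sum_comm]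
    refine sum_congr rfl fun i _ => ?_
    rw [← mul_sum, h3, mul_one]
  rw [htr, hsq, ← h5]
  have h6 : ∑ i, lam i = ∑ i ∈ univ.filter (fun i => lam i ≠ 0), lam i := by
    rw [sum_filter]
    refine sum_congr rfl fun i _ => ?_
    by_cases h : lam i = 0 <;> simp [h]
  have h7 : ∑ i ∈ univ.filter (fun i => lam i ≠ 0), lam i ^ 2 ≤ ∑ i, lam i ^ 2 :=
    sum_le_sum_of_subset_of_nonneg (filter_subset _ _) fun i _ _ => sq_nonneg _
  rw [h6]
  exact (sq_sum_le_card_mul_sum_sq).trans (mul_le_mul_of_nonneg_left h7 (Nat.cast_nonneg _))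

/-- adjacent or equal -/
def Near (G : SimpleGraph V) (x y : V) : Prop := G.Adj x y ∨ x = y

instance (G : SimpleGraph V) [DecidableRel G.Adj] : DecidableRel (Near G) := fun x y =>
  inferInstanceAs (Decidable (G.Adj x y ∨ x = y))

lemma near_tuples (G : SimpleGraph V) [DecidableRel G.Adj] (s t : ℕ) (ht : 1 ≤ t)
    (hfree : ∀ (f : Fin s → V) (g : Fin t → V), Function.Injective f → Function.Injective g →
      ¬ ∀ i j, G.Adj (f i) (g j)) (u : Fin s ↪ V) :
    (univ.filter (fun w => ∀ i, Near G (u i) w)).card ≤ s + t - 1 := by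
  have h1 : (univ.filter (fun w => ∀ i, Near G (u i) w)) ⊆
      (univ.image u) ∪ (univ.filter (fun w => ∀ i, G.Adj (u i) w)) := by
    intro w hw
    rw [mem_filter] at hw
    rw [mem_union]
    by_cases h : ∃ i, u i = w
    · obtain ⟨i, hi⟩ := h
      exact Or.inl (mem_image.2 ⟨i, mem_univ _, hi⟩)
    · push Not at h
      refine Or.inr (mem_filter.2 ⟨mem_univ _, fun i => ?_⟩)
      exact (hw.2 i).resolve_right (h i)
  have h2 : (univ.filter (fun w => ∀ i, G.Adj (u i) w)).card ≤ t - 1 := by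
    by_contra hcon
    push Not at hcon
    obtain ⟨B, hB, hBc⟩ := exists_subset_card_eq
      (s := univ.filter (fun w => ∀ i, G.Adj (u i) w)) (n := t) (by omega)
    refine hfree u (fun j => ((Finset.equivFinOfCardEq hBc).symm j : V)) u.injective
      (Subtype.val_injective.comp (Equiv.injective _)) ?_
    intro i j
    exact (mem_filter.1 (hB (Subtype.prop ((Finset.equivFinOfCardEq hBc).symm j)))).2 i
  have h3 : (univ.image u).card ≤ s := card_image_le.trans (by simp)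
  have h4 := card_le_card h1
  have h5 := card_union_le (univ.image u) (univ.filter (fun w => ∀ i, G.Adj (u i) w))
  omega

/-- **the rank bound** -/
theorem rank_bound (G : SimpleGraph V) [DecidableRel G.Adj] (s t : ℕ) (hs : 2 ≤ s) (ht : 1 ≤ t)
    (hfree : ∀ (f : Fin s → V) (g : Fin t → V), Function.Injective f → Function.Injective g →
      ¬ ∀ i j, G.Adj (f i) (g j))
    (M : Matrix V V ℝ) (K : ℝ) (hK : ∀ x y, |M x y| ≤ K)
    (h1 : ∀ x y, G.Adj x y → 1 ≤ |M x y|)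
    (h0 : ∀ x y, x ≠ y → ¬ G.Adj x y →
      |M x y| ≤ K * (Fintype.card V : ℝ) ^ (-(1 / (s : ℝ)))) :
    (G.edgeFinset.card : ℝ) ≤ 3 * K ^ 2 * (s * (s + t)) * √(M.rank) *
      (Fintype.card V : ℝ) ^ (2 - 2 / (s : ℝ)) := by
  classical
  rcases Nat.eq_zero_or_pos (Fintype.card V) with hV | hV
  · have : IsEmpty V := Fintype.card_eq_zero_iff.1 hV
    have e1 : G.edgeFinset.card = 0 := by
      rw [card_eq_zero, SimpleGraph.edgeFinset_eq_empty]
      exact Subsingleton.elim _ _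
    rw [e1]
    push_cast
    positivity
  have hn : (0 : ℝ) < Fintype.card V := by exact_mod_cast hV
  have hs0 : (0 : ℝ) < s := by
    have : 0 < s := by omega
    exact_mod_cast this
  have hs2 : (2 : ℝ) ≤ s := by exact_mod_cast hs
  obtain ⟨v₀⟩ : Nonempty V := Fintype.card_pos_iff.1 hV
  have hK0 : 0 ≤ K := (abs_nonneg _).trans (hK v₀ v₀)
  have hT := near_tuples G s t ht hfree
  have hsymm : ∀ x y, Near G x y ↔ Near G y x := by
    intro x y
    unfold Near
    rw [G.adj_comm, eq_comm]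
  obtain ⟨hc, hd⟩ := sum_sq (Near G) s t hs ht hT hV
  set n : ℝ := ((Fintype.card V : ℕ) : ℝ) with hnd
  set E : ℝ := (s * (s + t) : ℝ) with hE
  have hE0 : 0 < E := by positivity
  have hE1 : 1 ≤ E := by
    have : (0 : ℝ) ≤ t := Nat.cast_nonneg _
    rw [hE]
    nlinarith
  set δ : ℝ := n ^ (-(1 / (s : ℝ))) with hδ
  have hδ0 : 0 < δ := by positivity
  -- the entries
  set a : V → V → ℝ := fun x y => if Near G x y then 1 else 0 with ha
  have ha0 : ∀ x y, 0 ≤ a x y := by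
    intro x y
    rw [ha]
    simp only
    split_ifs <;> norm_num
  have hM : ∀ x y, |M x y| ≤ K * (a x y + δ) := by
    intro x y
    by_cases h : Near G x y
    · have : a x y = 1 := if_pos h
      rw [this]
      refine (hK x y).trans ?_
      nlinarith
    · have : a x y = 0 := if_neg h
      rw [this, zero_add]
      unfold Near at h
      push Not at h
      exact h0 x y h.2 h.1
  have hcod : ∀ x y, ∑ w, a x w * a y w = (cod (Near G) x y : ℝ) := by
    intro x y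
    rw [cod, card_filter]
    push_cast
    refine sum_congr rfl fun w _ => ?_
    rw [ha]
    simp only
    have hxw := hsymm x w
    have hyw := hsymm y w
    by_cases hx : Near G x w <;> by_cases hy : Near G y w <;> simp [hx, hy, ← hxw, ← hyw]
  have hdeg : ∀ x, ∑ w, a x w = (cod (Near G) x x : ℝ) := by
    intro x
    rw [← hcod x x]
    refine sum_congr rfl fun w _ => ?_
    rw [ha]
    simp only
    split_ifs <;> norm_num
  -- the Gram matrix
  set P : Matrix V V ℝ := M * Mᵀ with hP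
  have hPu : ∀ u v, P u v = ∑ w, M u w * M v w := by
    intro u v
    rw [hP, mul_apply]
    rfl
  have hPH : P.IsHermitian := by
    ext u v
    rw [conjTranspose_apply, star_trivial, hPu, hPu]
    refine sum_congr rfl fun w _ => ?_
    ring
  have hPabs : ∀ u v, |P u v| ≤ K ^ 2 * ((cod (Near G) u v : ℝ) +
      δ * ((cod (Near G) u u : ℝ) + (cod (Near G) v v : ℝ)) + n * δ ^ 2) := by
    intro u v
    rw [hPu]
    have e1 : |∑ w, M u w * M v w| ≤ ∑ w, (K * (a u w + δ)) * (K * (a v w + δ)) := by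
      refine (abs_sum_le_sum_abs _ _).trans (sum_le_sum fun w _ => ?_)
      rw [abs_mul]
      refine mul_le_mul (hM u w) (hM v w) (abs_nonneg _) ?_
      have := ha0 u w
      positivity
    refine e1.trans (le_of_eq ?_)
    have e2 : ∀ w, (K * (a u w + δ)) * (K * (a v w + δ)) =
        K ^ 2 * (a u w * a v w + δ * a u w + δ * a v w + δ ^ 2) := fun w => by ring
    rw [sum_congr rfl fun w _ => e2 w, ← mul_sum]
    simp only [sum_add_distrib, ← mul_sum, hcod, hdeg, sum_const, nsmul_eq_mul, card_univ]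
    ring
  -- the sum of the squares
  have hsum : ∑ u, ∑ v, P u v ^ 2 ≤ 33 * K ^ 4 * E ^ 2 * n ^ (4 - 4 / (s : ℝ)) := by
    have e1 : ∀ u v, P u v ^ 2 ≤ K ^ 4 * (3 * (cod (Near G) u v : ℝ) ^ 2 +
        6 * δ ^ 2 * ((cod (Near G) u u : ℝ) ^ 2 + (cod (Near G) v v : ℝ) ^ 2) +
          3 * (n * δ ^ 2) ^ 2) := by
      intro u v
      set c : ℝ := (cod (Near G) u v : ℝ)
      set d : ℝ := (cod (Near G) u u : ℝ)
      set d' : ℝ := (cod (Near G) v v : ℝ)
      have f1 : P u v ^ 2 ≤ (K ^ 2 * (c + δ * (d + d') + n * δ ^ 2)) ^ 2 := by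
        rw [← sq_abs (P u v)]
        exact pow_le_pow_left₀ (abs_nonneg _) (hPabs u v) 2
      refine f1.trans ?_
      have f2 : (c + δ * (d + d') + n * δ ^ 2) ^ 2 ≤
          3 * c ^ 2 + 6 * δ ^ 2 * (d ^ 2 + d' ^ 2) + 3 * (n * δ ^ 2) ^ 2 := by
        nlinarith [sq_nonneg (c - δ * (d + d')), sq_nonneg (c - n * δ ^ 2),
          sq_nonneg (δ * (d + d') - n * δ ^ 2), sq_nonneg (δ * (d - d'))]
      have f3 : (K ^ 2 * (c + δ * (d + d') + n * δ ^ 2)) ^ 2 =
          K ^ 4 * (c + δ * (d + d') + n * δ ^ 2) ^ 2 := by ring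
      rw [f3]
      exact mul_le_mul_of_nonneg_left f2 (by positivity)
    refine (sum_le_sum fun u _ => sum_le_sum fun v _ => e1 u v).trans ?_
    have e2 : ∑ u : V, ∑ v : V, K ^ 4 * (3 * (cod (Near G) u v : ℝ) ^ 2 +
        6 * δ ^ 2 * ((cod (Near G) u u : ℝ) ^ 2 + (cod (Near G) v v : ℝ) ^ 2) +
          3 * (n * δ ^ 2) ^ 2) =
        K ^ 4 * (3 * ∑ u, ∑ v, (cod (Near G) u v : ℝ) ^ 2 +
          12 * δ ^ 2 * n * ∑ u, (cod (Near G) u u : ℝ) ^ 2 + 3 * n ^ 2 * (n * δ ^ 2) ^ 2) := by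
      simp only [← mul_sum, sum_add_distrib, sum_const, nsmul_eq_mul, card_univ]
      ring
    rw [e2]
    have hδ2 : δ ^ 2 = n ^ (-(2 / (s : ℝ))) := by
      rw [hδ, ← Real.rpow_natCast, ← Real.rpow_mul hn.le]
      congr 1
      push_cast
      ring
    have e3 : δ ^ 2 * n * n ^ (3 - 2 / (s : ℝ)) = n ^ (4 - 4 / (s : ℝ)) := by
      rw [hδ2]
      nth_rewrite 2 [← Real.rpow_one n]
      rw [← Real.rpow_add hn, ← Real.rpow_add hn]
      congr 1
      ring
    have e4 : n ^ 2 * (n * δ ^ 2) ^ 2 = n ^ (4 - 4 / (s : ℝ)) := by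
      have : n ^ 2 * (n * δ ^ 2) ^ 2 = n ^ (4 : ℕ) * (δ ^ 2) ^ 2 := by ring
      rw [this, hδ2, ← Real.rpow_natCast (n ^ (-(2 / (s : ℝ)))), ← Real.rpow_mul hn.le,
        ← Real.rpow_natCast n 4, ← Real.rpow_add hn]
      congr 1
      push_cast
      ring
    set X := n ^ (4 - 4 / (s : ℝ)) with hX
    have hX0 : 0 < X := by positivity
    have e5 : 12 * δ ^ 2 * n * ∑ u, (cod (Near G) u u : ℝ) ^ 2 ≤ 24 * E ^ 2 * X := by
      have g1 := mul_le_mul_of_nonneg_left hd (show 0 ≤ 12 * δ ^ 2 * n by positivity)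
      refine g1.trans (le_of_eq ?_)
      rw [← e3]
      ring
    have e6 : 3 * n ^ 2 * (n * δ ^ 2) ^ 2 ≤ 3 * E ^ 2 * X := by
      have g1 : 3 * n ^ 2 * (n * δ ^ 2) ^ 2 = 3 * X := by
        rw [← e4]
        ring
      rw [g1]
      have : 1 ≤ E ^ 2 := one_le_pow₀ hE1
      nlinarith
    have e7 : 3 * ∑ u, ∑ v, (cod (Near G) u v : ℝ) ^ 2 +
          12 * δ ^ 2 * n * ∑ u, (cod (Near G) u u : ℝ) ^ 2 + 3 * n ^ 2 * (n * δ ^ 2) ^ 2 ≤
        33 * E ^ 2 * X := by linarith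
    calc K ^ 4 * (3 * ∑ u, ∑ v, (cod (Near G) u v : ℝ) ^ 2 +
          12 * δ ^ 2 * n * ∑ u, (cod (Near G) u u : ℝ) ^ 2 + 3 * n ^ 2 * (n * δ ^ 2) ^ 2) ≤
        K ^ 4 * (33 * E ^ 2 * X) := mul_le_mul_of_nonneg_left e7 (by positivity)
      _ = 33 * K ^ 4 * E ^ 2 * X := by ring
  -- the trace
  have htr : 2 * (G.edgeFinset.card : ℝ) ≤ ∑ v, P v v := by
    have e1 : (2 * G.edgeFinset.card : ℝ) = ∑ v : V, (G.degree v : ℝ) := by
      exact_mod_cast G.sum_degrees_eq_twice_card_edges.symm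
    rw [e1]
    refine sum_le_sum fun v _ => ?_
    rw [hPu]
    have e2 : (G.degree v : ℝ) = ∑ w, (if G.Adj v w then (1 : ℝ) else 0) := by
      rw [sum_boole, ← SimpleGraph.card_neighborFinset_eq_degree,
        SimpleGraph.neighborFinset_eq_filter]
    rw [e2]
    refine sum_le_sum fun w _ => ?_
    split_ifs with h
    · have := h1 v w h
      rw [← abs_mul_abs_self]
      nlinarith
    · exact mul_self_nonneg _
  have hrank : (P.rank : ℝ) ≤ M.rank := by
    exact_mod_cast rank_mul_le_left M Mᵀ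
  have hmain := trace_sq_le P hPH
  set e : ℝ := (G.edgeFinset.card : ℝ) with he
  have he0 : 0 ≤ e := Nat.cast_nonneg _
  have h5 : (2 * e) ^ 2 ≤ M.rank * (33 * K ^ 4 * E ^ 2 * n ^ (4 - 4 / (s : ℝ))) := by
    calc (2 * e) ^ 2 ≤ (∑ v, P v v) ^ 2 := pow_le_pow_left₀ (by positivity) htr 2
      _ ≤ P.rank * ∑ u, ∑ v, P u v ^ 2 := hmain
      _ ≤ M.rank * ∑ u, ∑ v, P u v ^ 2 := mul_le_mul_of_nonneg_right hrank (by positivity)
      _ ≤ _ := mul_le_mul_of_nonneg_left hsum (Nat.cast_nonneg _)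
  have h6 : n ^ (4 - 4 / (s : ℝ)) = (n ^ (2 - 2 / (s : ℝ))) ^ 2 := by
    rw [← Real.rpow_natCast, ← Real.rpow_mul hn.le]
    congr 1
    push_cast
    ring
  have h7 : (3 * K ^ 2 * E * √(M.rank) * n ^ (2 - 2 / (s : ℝ))) ^ 2 =
      9 * (M.rank * (K ^ 4 * E ^ 2 * n ^ (4 - 4 / (s : ℝ)))) := by
    rw [h6]
    have : √((M.rank : ℕ) : ℝ) ^ 2 = M.rank := Real.sq_sqrt (Nat.cast_nonneg _)
    calc (3 * K ^ 2 * E * √(M.rank) * n ^ (2 - 2 / (s : ℝ))) ^ 2 =
        9 * K ^ 4 * E ^ 2 * √((M.rank : ℕ) : ℝ) ^ 2 * (n ^ (2 - 2 / (s : ℝ))) ^ 2 := by ring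
      _ = _ := by
        rw [this]
        ring
  have h8 : e ^ 2 ≤ (3 * K ^ 2 * E * √(M.rank) * n ^ (2 - 2 / (s : ℝ))) ^ 2 := by
    rw [h7]
    have : 0 ≤ (M.rank : ℝ) * (K ^ 4 * E ^ 2 * n ^ (4 - 4 / (s : ℝ))) := by positivity
    nlinarith
  exact (pow_le_pow_iff_left₀ he0 (by positivity) two_ne_zero).1 h8

end Pool.Agent.J4H91.RK
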