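import Mathlib.Algebra.BigOperators.Ring.Finset
import Mathlib.Algebra.Order.BigOperators.Ring.Finset
import Mathlib.Analysis.SpecialFunctions.Pow.Real
import Mathlib.Data.Fintype.CardEmbedding
import Mathlib.Tactic

/-!
# Common neighbours in relations without `K_{s,t}`
-/

set_option autoImplicit false

namespace Pool.Agent.J4H91.RK

open Finset

variable {V : Type} [Fintype V] [DecidableEq V]

/-- the number of the common neighbours -/
def cod (R : V → V → Prop) [DecidableRel R] (x y : V) : ℕ :=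
  (univ.filter (fun w => R w x ∧ R w y)).card

omit [DecidableEq V] in
/-- counting `s`-tuples -/
lemma count (R : V → V → Prop) [DecidableRel R] (s T : ℕ)
    (hT : ∀ u : Fin s ↪ V, (univ.filter (fun w => ∀ i, R (u i) w)).card ≤ T) :
    ∑ x, ∑ y, (cod R x y).descFactorial s ≤ T ^ 2 * Fintype.card V ^ s := by
  classical
  have h1 : ∀ x y, (cod R x y).descFactorial s ≤
      ((univ : Finset (Fin s ↪ V)).filter (fun u => ∀ i, R (u i) x ∧ R (u i) y)).card := by
    intro x y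
    have e1 : (cod R x y).descFactorial s = Fintype.card (Fin s ↪ {w // R w x ∧ R w y}) := by
      rw [Fintype.card_embedding_eq, Fintype.card_fin, Fintype.card_subtype]
      rfl
    rw [e1, ← card_univ]
    refine card_le_card_of_injOn
      (fun u => (u.trans (Function.Embedding.subtype _) : Fin s ↪ V)) ?_ ?_
    · intro u _
      simp only [coe_filter, mem_univ, true_and, Set.mem_ofPred_eq]
      intro i
      exact (u i).2
    · intro u _ v _ huv
      ext i
      have := DFunLike.congr_fun huv i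
      exact this
  have h2 : ∑ x, ∑ y, (cod R x y).descFactorial s ≤
      ∑ x, ∑ y, ∑ u : Fin s ↪ V, (if ∀ i, R (u i) x ∧ R (u i) y then 1 else 0) := by
    refine sum_le_sum fun x _ => sum_le_sum fun y _ => ?_
    rw [← card_filter]
    exact h1 x y
  refine h2.trans ?_
  have h3 : ∑ x, ∑ y, ∑ u : Fin s ↪ V, (if ∀ i, R (u i) x ∧ R (u i) y then 1 else 0) =
      ∑ u : Fin s ↪ V, (univ.filter (fun w => ∀ i, R (u i) w)).card ^ 2 := by
    have e1 : ∀ x, ∑ y, ∑ u : Fin s ↪ V, (if ∀ i, R (u i) x ∧ R (u i) y then 1 else 0) =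
        ∑ u : Fin s ↪ V, ∑ y, (if ∀ i, R (u i) x ∧ R (u i) y then 1 else 0) := fun x => sum_comm
    rw [sum_congr rfl fun x _ => e1 x, sum_comm]
    refine sum_congr rfl fun u _ => ?_
    rw [sq, card_filter, sum_mul_sum]
    refine sum_congr rfl fun x _ => sum_congr rfl fun y _ => ?_
    rw [ite_zero_mul_ite_zero, one_mul]
    refine if_congr ?_ rfl rfl
    exact forall_and
  rw [h3]
  calc ∑ u : Fin s ↪ V, (univ.filter (fun w => ∀ i, R (u i) w)).card ^ 2 ≤
      ∑ _u : Fin s ↪ V, T ^ 2 := sum_le_sum fun u _ => Nat.pow_le_pow_left (hT u) 2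
    _ = Fintype.card (Fin s ↪ V) * T ^ 2 := by rw [sum_const, smul_eq_mul, card_univ]
    _ ≤ Fintype.card V ^ s * T ^ 2 := by
      refine Nat.mul_le_mul_right _ ?_
      rw [Fintype.card_embedding_eq, Fintype.card_fin]
      exact Nat.descFactorial_le_pow _ _
    _ = _ := mul_comm _ _

lemma pow_le_desc (c s : ℕ) (hs : 1 ≤ s) : c ^ s ≤ s ^ s * c.descFactorial s + s ^ s := by
  rcases Nat.lt_or_ge c s with h | h
  · exact (Nat.pow_le_pow_left h.le s).trans (Nat.le_add_left _ _)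
  · have h1 : c ≤ s * (c + 1 - s) := by
      obtain ⟨d, rfl⟩ := Nat.exists_eq_add_of_le h
      have : s + d + 1 - s = d + 1 := by omega
      rw [this]
      nlinarith
    have h2 : c ^ s ≤ s ^ s * c.descFactorial s := by
      calc c ^ s ≤ (s * (c + 1 - s)) ^ s := Nat.pow_le_pow_left h1 s
        _ = s ^ s * (c + 1 - s) ^ s := mul_pow _ _ _
        _ ≤ _ := Nat.mul_le_mul_left _ (Nat.pow_sub_le_descFactorial c s)
    omega

omit [DecidableEq V] in
/-- the sum of the `s`-th powers -/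
lemma sum_pow (R : V → V → Prop) [DecidableRel R] (s t : ℕ) (hs : 2 ≤ s) (ht : 1 ≤ t)
    (hT : ∀ u : Fin s ↪ V, (univ.filter (fun w => ∀ i, R (u i) w)).card ≤ s + t - 1) :
    ∑ x, ∑ y, cod R x y ^ s ≤ (s * (s + t) * Fintype.card V) ^ s := by
  have h1 := count R s (s + t - 1) hT
  have h2 : ∑ x, ∑ y, cod R x y ^ s ≤
      ∑ x : V, ∑ y : V, (s ^ s * (cod R x y).descFactorial s + s ^ s) :=
    sum_le_sum fun x _ => sum_le_sum fun y _ => pow_le_desc _ _ (by omega)
  refine h2.trans ?_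
  have h3 : ∑ x : V, ∑ y : V, (s ^ s * (cod R x y).descFactorial s + s ^ s) =
      s ^ s * ∑ x, ∑ y, (cod R x y).descFactorial s + s ^ s * Fintype.card V ^ 2 := by
    simp only [sum_add_distrib, mul_sum, sum_const, smul_eq_mul, card_univ]
    ring
  rw [h3]
  set n := Fintype.card V with hn
  have h4 : n ^ 2 ≤ n ^ s := by
    rcases Nat.eq_zero_or_pos n with h | h
    · rw [h, zero_pow (by omega), zero_pow (by omega)]
    · exact Nat.pow_le_pow_right h hs
  have h5 : (s + t - 1) ^ 2 + 1 ≤ (s + t) ^ s := by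
    calc (s + t - 1) ^ 2 + 1 ≤ (s + t) ^ 2 := by
          obtain ⟨m, hm⟩ : ∃ m, s + t = m + 1 := ⟨s + t - 1, by omega⟩
          rw [hm, Nat.add_sub_cancel]
          nlinarith
      _ ≤ (s + t) ^ s := Nat.pow_le_pow_right (by omega) hs
  calc s ^ s * ∑ x, ∑ y, (cod R x y).descFactorial s + s ^ s * n ^ 2 ≤
      s ^ s * ((s + t - 1) ^ 2 * n ^ s) + s ^ s * n ^ s :=
        Nat.add_le_add (Nat.mul_le_mul_left _ h1) (Nat.mul_le_mul_left _ h4)
    _ = s ^ s * (((s + t - 1) ^ 2 + 1) * n ^ s) := by ring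
    _ ≤ s ^ s * ((s + t) ^ s * n ^ s) :=
        Nat.mul_le_mul_left _ (Nat.mul_le_mul_right _ h5)
    _ = (s * (s + t) * n) ^ s := by rw [mul_pow, mul_pow, mul_assoc]

/-- truncation -/
lemma sq_le_trunc (a B : ℝ) (ha : 0 ≤ a) (hB : 0 < B) (s : ℕ) (hs : 2 ≤ s) :
    a ^ 2 ≤ B ^ 2 + a ^ s * (B ^ 2 / B ^ s) := by
  rcases le_total a B with h | h
  · have h1 := pow_le_pow_left₀ ha h 2
    have h2 : 0 ≤ a ^ s * (B ^ 2 / B ^ s) := by positivity
    linarith
  · have h1 : 1 ≤ a / B := (one_le_div hB).2 h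
    have h2 : (a / B) ^ 2 ≤ (a / B) ^ s := pow_le_pow_right₀ h1 hs
    have h3 : a ^ 2 = B ^ 2 * (a / B) ^ 2 := by
      rw [div_pow]
      field_simp
    have h4 : a ^ s * (B ^ 2 / B ^ s) = B ^ 2 * (a / B) ^ s := by
      rw [div_pow]
      ring
    rw [h4, h3]
    have := mul_le_mul_of_nonneg_left h2 (sq_nonneg B)
    nlinarith [sq_nonneg B]

omit [DecidableEq V] in
/-- the sums of squares -/
lemma sum_sq (R : V → V → Prop) [DecidableRel R] (s t : ℕ) (hs : 2 ≤ s) (ht : 1 ≤ t)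
    (hT : ∀ u : Fin s ↪ V, (univ.filter (fun w => ∀ i, R (u i) w)).card ≤ s + t - 1)
    (hV : 1 ≤ Fintype.card V) :
    ∑ x, ∑ y, (cod R x y : ℝ) ^ 2 ≤
        2 * (s * (s + t) : ℝ) ^ 2 * (Fintype.card V : ℝ) ^ (4 - 4 / (s : ℝ)) ∧
      ∑ x, (cod R x x : ℝ) ^ 2 ≤
        2 * (s * (s + t) : ℝ) ^ 2 * (Fintype.card V : ℝ) ^ (3 - 2 / (s : ℝ)) := by
  have hn : (0 : ℝ) < Fintype.card V := by exact_mod_cast hV
  have hs0 : (0 : ℝ) < s := by
    have : 0 < s := by omega
    exact_mod_cast this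
  set n : ℝ := ((Fintype.card V : ℕ) : ℝ) with hnd
  set E : ℝ := (s * (s + t) : ℝ) with hE
  have hE0 : 0 < E := by positivity
  have hsum : ∑ x, ∑ y, (cod R x y : ℝ) ^ s ≤ (E * n) ^ s := by
    have := sum_pow R s t hs ht hT
    have h1 : ((∑ x, ∑ y, cod R x y ^ s : ℕ) : ℝ) ≤
        (((s * (s + t) * Fintype.card V) ^ s : ℕ) : ℝ) := Nat.cast_le.2 this
    push_cast at h1
    rw [hE, hnd]
    exact h1
  have hdiag : ∑ x, (cod R x x : ℝ) ^ s ≤ (E * n) ^ s := by
    refine le_trans ?_ hsum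
    refine sum_le_sum fun x _ => ?_
    exact single_le_sum (f := fun y => (cod R x y : ℝ) ^ s) (fun y _ => by positivity)
      (mem_univ x)
  constructor
  · set B := E * n ^ (1 - 2 / (s : ℝ)) with hB
    have hB0 : 0 < B := by positivity
    have hBs : B ^ s = E ^ s * n ^ ((s : ℝ) - 2) := by
      rw [hB, mul_pow, ← Real.rpow_natCast (n ^ (1 - 2 / (s : ℝ))), ← Real.rpow_mul hn.le]
      congr 2
      field_simp
    have hB2 : B ^ 2 = E ^ 2 * n ^ (2 - 4 / (s : ℝ)) := by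
      rw [hB, mul_pow, ← Real.rpow_natCast (n ^ (1 - 2 / (s : ℝ))), ← Real.rpow_mul hn.le]
      congr 2
      push_cast
      ring
    have h1 : ∑ x, ∑ y, (cod R x y : ℝ) ^ 2 ≤
        ∑ x : V, ∑ y : V, (B ^ 2 + (cod R x y : ℝ) ^ s * (B ^ 2 / B ^ s)) :=
      sum_le_sum fun x _ => sum_le_sum fun y _ => sq_le_trunc _ _ (Nat.cast_nonneg _) hB0 s hs
    refine h1.trans ?_
    have h2 : ∑ x : V, ∑ y : V, (B ^ 2 + (cod R x y : ℝ) ^ s * (B ^ 2 / B ^ s)) =
        n ^ 2 * B ^ 2 + (∑ x, ∑ y, (cod R x y : ℝ) ^ s) * (B ^ 2 / B ^ s) := by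
      simp only [sum_add_distrib, sum_mul, sum_const, nsmul_eq_mul, card_univ]
      ring
    rw [h2]
    have h3 : n ^ 2 * B ^ 2 = E ^ 2 * n ^ (4 - 4 / (s : ℝ)) := by
      rw [hB2, show (4 - 4 / (s : ℝ)) = (2 : ℕ) + (2 - 4 / (s : ℝ)) by push_cast; ring,
        Real.rpow_add hn, Real.rpow_natCast]
      ring
    have h4 : (E * n) ^ s * (B ^ 2 / B ^ s) = E ^ 2 * n ^ (4 - 4 / (s : ℝ)) := by
      rw [hB2, hBs, mul_pow]
      have e1 : n ^ s = n ^ (2 : ℕ) * n ^ ((s : ℝ) - 2) := by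
        rw [← Real.rpow_natCast n s, ← Real.rpow_natCast n 2, ← Real.rpow_add hn]
        congr 1
        push_cast
        ring
      rw [e1, show (4 - 4 / (s : ℝ)) = (2 : ℕ) + (2 - 4 / (s : ℝ)) by push_cast; ring,
        Real.rpow_add hn, Real.rpow_natCast]
      have : 0 < n ^ ((s : ℝ) - 2) := by positivity
      field_simp
    have h5 := mul_le_mul_of_nonneg_right hsum (show 0 ≤ B ^ 2 / B ^ s by positivity)
    linarith
  · set B := E * n ^ (1 - 1 / (s : ℝ)) with hB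
    have hB0 : 0 < B := by positivity
    have hBs : B ^ s = E ^ s * n ^ ((s : ℝ) - 1) := by
      rw [hB, mul_pow, ← Real.rpow_natCast (n ^ (1 - 1 / (s : ℝ))), ← Real.rpow_mul hn.le]
      congr 2
      field_simp
    have hB2 : B ^ 2 = E ^ 2 * n ^ (2 - 2 / (s : ℝ)) := by
      rw [hB, mul_pow, ← Real.rpow_natCast (n ^ (1 - 1 / (s : ℝ))), ← Real.rpow_mul hn.le]
      congr 2
      push_cast
      ring
    have h1 : ∑ x, (cod R x x : ℝ) ^ 2 ≤
        ∑ x : V, (B ^ 2 + (cod R x x : ℝ) ^ s * (B ^ 2 / B ^ s)) :=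
      sum_le_sum fun x _ => sq_le_trunc _ _ (Nat.cast_nonneg _) hB0 s hs
    refine h1.trans ?_
    have h2 : ∑ x : V, (B ^ 2 + (cod R x x : ℝ) ^ s * (B ^ 2 / B ^ s)) =
        n * B ^ 2 + (∑ x, (cod R x x : ℝ) ^ s) * (B ^ 2 / B ^ s) := by
      simp only [sum_add_distrib, sum_mul, sum_const, nsmul_eq_mul, card_univ]
      rfl
    rw [h2]
    have h3 : n * B ^ 2 = E ^ 2 * n ^ (3 - 2 / (s : ℝ)) := by
      rw [hB2, show (3 - 2 / (s : ℝ)) = 1 + (2 - 2 / (s : ℝ)) by ring,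
        Real.rpow_add hn, Real.rpow_one]
      ring
    have h4 : (E * n) ^ s * (B ^ 2 / B ^ s) = E ^ 2 * n ^ (3 - 2 / (s : ℝ)) := by
      rw [hB2, hBs, mul_pow]
      have e1 : n ^ s = n * n ^ ((s : ℝ) - 1) := by
        rw [← Real.rpow_natCast n s]
        nth_rewrite 2 [← Real.rpow_one n]
        rw [← Real.rpow_add hn]
        congr 1
        ring
      rw [e1, show (3 - 2 / (s : ℝ)) = 1 + (2 - 2 / (s : ℝ)) by ring,
        Real.rpow_add hn, Real.rpow_one]
      have : 0 < n ^ ((s : ℝ) - 1) := by positivity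
      field_simp
    have h5 := mul_le_mul_of_nonneg_right hdiag (show 0 ≤ B ^ 2 / B ^ s by positivity)
    linarith

end Pool.Agent.J4H91.RK
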